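import Mathlib
import Pool.Agent.Lib.helper7.K33

set_option autoImplicit false

namespace Pool.Agent.Results.MP_64ab56_co.K16

/-- A drawing in the plane: distinct points, edges are simple arcs that meet vertices and other
edges only at their ends. -/
def Planar {V : Type} (G : SimpleGraph V) : Prop :=
  ∃ (p : V → ℝ × ℝ) (γ : V → V → unitInterval → ℝ × ℝ), Function.Injective p ∧
    (∀ u v, G.Adj u v → Continuous (γ u v) ∧ Function.Injective (γ u v) ∧ γ u v 0 = p u ∧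
      γ u v 1 = p v ∧ ∀ w t, γ u v t = p w → t = 0 ∨ t = 1) ∧
    ∀ u v x y, G.Adj u v → G.Adj x y → s(u, v) ≠ s(x, y) →
      ∀ s t, γ u v s = γ x y t → s = 0 ∨ s = 1

/-- The numbers k such that the complete graph on p vertices has k pairwise edge-disjoint
nonplanar subgraphs. -/
def Packs (p : ℕ) : Set ℕ :=
  {k | ∃ H : Fin k → SimpleGraph (Fin p),
    (∀ i j, i ≠ j → Disjoint (H i).edgeSet (H j).edgeSet) ∧ ∀ i, ¬ Planar (H i)}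

def col : Fin 16 → Fin 16 → Fin 13 :=
  ![![0, 12, 11, 10, 12, 11, 10, 1, 1, 7, 10, 7, 7, 12, 1, 11],
    ![12, 0, 3, 8, 11, 12, 8, 3, 3, 12, 6, 8, 6, 6, 11, 11],
    ![11, 3, 0, 9, 11, 3, 4, 5, 4, 4, 9, 9, 5, 5, 11, 3],
    ![10, 8, 9, 0, 8, 10, 9, 3, 3, 8, 2, 2, 2, 10, 9, 3],
    ![12, 11, 11, 8, 0, 11, 8, 1, 1, 12, 6, 8, 6, 6, 1, 12],
    ![11, 12, 3, 10, 11, 0, 10, 3, 3, 7, 10, 7, 7, 12, 11, 12],
    ![10, 8, 4, 9, 8, 10, 0, 4, 0, 8, 9, 9, 0, 10, 4, 0],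
    ![1, 3, 5, 3, 1, 3, 4, 0, 4, 4, 6, 5, 6, 6, 5, 1],
    ![1, 3, 4, 3, 1, 3, 0, 4, 0, 0, 2, 2, 2, 0, 4, 1],
    ![7, 12, 4, 8, 12, 7, 8, 4, 0, 0, 7, 8, 0, 12, 4, 0],
    ![10, 6, 9, 2, 6, 10, 9, 6, 2, 7, 0, 7, 7, 10, 9, 2],
    ![7, 8, 9, 2, 8, 7, 9, 5, 2, 8, 7, 0, 5, 5, 9, 2],
    ![7, 6, 5, 2, 6, 7, 0, 6, 2, 0, 7, 5, 0, 0, 5, 2],
    ![12, 6, 5, 10, 6, 12, 10, 6, 0, 12, 10, 5, 0, 0, 5, 0],
    ![1, 11, 11, 9, 1, 11, 4, 5, 4, 4, 9, 9, 5, 5, 0, 1],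
    ![11, 11, 3, 3, 12, 12, 0, 1, 1, 0, 2, 2, 2, 0, 1, 0]]

def sideA : Fin 13 → Fin 3 → Fin 16 :=
  ![![15, 8, 12], ![15, 0, 4], ![15, 3, 8], ![2, 8, 7], ![8, 6, 9], ![7, 12, 13], ![7, 1, 4], ![12, 9, 11], ![11, 3, 6], ![11, 3, 10], ![6, 3, 10], ![0, 14, 4], ![4, 1, 13]]

def sideB : Fin 13 → Fin 3 → Fin 16 :=
  ![![6, 9, 13], ![8, 7, 14], ![12, 10, 11], ![3, 1, 5], ![7, 2, 14], ![2, 11, 14], ![12, 10, 13], ![10, 0, 5], ![9, 1, 4], ![2, 6, 14], ![13, 0, 5], ![1, 2, 5], ![5, 0, 9]]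

def mid : Fin 13 → Fin 16 := ![0, 1, 0, 15, 0, 0, 0, 1, 0, 0, 1, 15, 15]

def cls (k : Fin 13) : SimpleGraph (Fin 16) where
  Adj x y := x ≠ y ∧ col x y = k ∧ col y x = k
  symm := ⟨fun _ _ h => ⟨h.1.symm, h.2.2, h.2.1⟩⟩
  loopless := ⟨fun _ h => h.1 rfl⟩

instance (k : Fin 13) : DecidableRel (cls k).Adj := fun x y =>
  inferInstanceAs (Decidable (x ≠ y ∧ col x y = k ∧ col y x = k))

theorem data : ∀ k : Fin 13, Function.Injective (sideA k) ∧ Function.Injective (sideB k) ∧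
    (∀ i j, sideA k i ≠ sideB k j) ∧ (∀ i, mid k ≠ sideA k i) ∧ (∀ i, mid k ≠ sideB k i) ∧
    ∀ i j, (cls k).Adj (sideA k i) (sideB k j) ∨
      (i = 0 ∧ j = 0 ∧ (cls k).Adj (sideA k 0) (mid k) ∧ (cls k).Adj (mid k) (sideB k 0)) := by
  decide +kernel

theorem mem13 : 13 ∈ Packs 16 := by
  refine ⟨cls, fun i j hij => ?_, fun k ⟨p, γ, hp, h1, h2⟩ => ?_⟩
  · rw [Set.disjoint_left]
    intro e
    induction e using Sym2.ind with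
    | h x y => exact fun h h' => hij (h.2.1.symm.trans h'.2.1)
  · obtain ⟨d1, d2, d3, d4, d5, d6⟩ := data k
    exact Pool.Agent.Lib.helper7.K33.no_drawing (cls k) (sideA k) (sideB k) (mid k)
      d1 d2 d3 d4 d5 d6 p γ hp
      (fun u v h => ⟨(h1 u v h).1, (h1 u v h).2.2.1, (h1 u v h).2.2.2.1⟩) h2

theorem result : 13 ∈ Packs 16 ∧
    ¬ (IsGreatest (Packs 13) 7 ∧ IsGreatest (Packs 18) 15 ∧ IsGreatest (Packs 21) 21 ∧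
      IsGreatest (Packs 24) 28 ∧ IsGreatest (Packs 27) 36 ∧
      ∀ n : ℕ, 1 ≤ n → IsGreatest (Packs (9 * n + 7)) ((9 * n ^ 2 + 13 * n + 2) / 2)) := by
  refine ⟨mem13, fun h => ?_⟩
  have := (h.2.2.2.2.2 1 le_rfl).2 mem13
  omega

end Pool.Agent.Results.MP_64ab56_co.K16
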